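import Pool.Agent.H42.D2.Ntb
import Pool.Agent.H71.AVG.Cof
import Pool.Agent.H83.OWN.Lbc

/-!
# The codes of the own path over labels of a family

`NpW`: the hypotheses of the near path theorem with a value, the accuracy of the chain free. `cod_npw`:
all codes of the own path over the
labels of the family are few bits given the ball and the context of the chain.
-/

set_option autoImplicit false

namespace Pool.NPZ

open Finset Real MvPolynomial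
open Pool.Agent.H49.Ent Pool.Agent.H32.Dense Pool.STK Pool.KA Pool.KSAT Pool.K2S Pool.PB Pool.GEN
open Pool.S6C Pool.RCD Pool.LA91 Pool.OWN68 Pool.CHT Pool.AJW
open Pool.GRD (LbP)
open Pool.UNJ (ceI Tub)
open Pool.ALT (DpI)
open Pool.AJX (LbX FwX)
open Pool.AVG71 (cod_few)

/-- **The hypotheses of the near path theorem** with a value, the labels of the
target less precise than those of the chain: degree `K` of the labels of the path,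
deficit `h`, error `δ q` of the rows. -/
structure NpW (K : ℕ) (h δ : ℝ) {m : ℕ} (S : PCl m) (c : ℕ → Fin m) (r₀ r : ℕ)
    (v w lam ρ g₀ : ℝ) (E pc s n lv rd : ℕ → ℝ) (κ : Fin m) (I : Finset (Fin m)) (Kc : ℕ)
    (e P pN q d rG eG a : ℝ) (Θ : Fm4 m) : Prop where
  ch : ChV S c r₀ r v w lam ρ g₀ E pc s n lv rd
  e0 : 0 < e
  e8 : e ≤ ρ / 8
  eg : e ≤ g₀ / 2
  pNP : pN < P
  Pδ : P - pN ≤ δ * q / 8
  q0 : 0 < q
  vq : v + q ≤ 1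
  wa : w ≤ a
  a1 : a ≤ 1
  rG0 : 0 ≤ rG
  eG0 : 0 < eG
  dd : d + (r + 1) * ρ < δ * q / 2
  npl : NpL Θ c r₀ r Kc v e E rd pc
  val : ValP S Θ c r₀ r κ v w (P + q) n (fun J F => ptr F J)
    (fun J (F : Fam m J) ω => (bI ((range r₀).image c) (v + lam) J F ω, F.W ω))
  lb : ∀ (J : ℕ) (F : Fam m J) (A : F.Ω → Prop) (V : Type) (z : PtT F → V) (z' : LnT F → V)
    (G : V → MvPolynomial (Option (Fin m)) ℝ) (g : V → ℕ → MvPolynomial (Option (Fin m)) ℝ),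
    Θ J F A V z z' G g →
    LbOK F I κ K ⌊eG * J⌋₊ J ⌊v * J⌋₊ ⌊(rG + eG) * J⌋₊ ⌊pN * J⌋₊ A z z' G
  hs : ∀ (J : ℕ) (F : Fam m J) (A B : F.Ω → Prop) (V : Type) (z : PtT F → V) (z' : LnT F → V)
    (G : V → MvPolynomial (Option (Fin m)) ℝ) (g : V → ℕ → MvPolynomial (Option (Fin m)) ℝ),
    Sub B A → Θ J F A V z z' G g → Θ J F B V z z' G g
  row : ∀ sa sb : ℝ, P ≤ sa → sa ≤ sb → sb ≤ P + q →
    Bas S (fun J F A => ∀ (V : Type) (z : PtT F → V) (z' : LnT F → V)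
    (G : V → MvPolynomial (Option (Fin m)) ℝ) (g : V → ℕ → MvPolynomial (Option (Fin m)) ℝ),
    Θ J F A V z z' G g →
    CH (Pool.Agent.H49.Ent.cond F.p A True)
      (fun ω => ⌊(2 : ℝ) ^ (sb * J) * ojet F κ 0 (G (z' (slam F ⌊v * J⌋₊ ω))) ω⌋)
      (fun ω => (⌊(2 : ℝ) ^ (sa * J) * ojet F κ 0 (G (z' (slam F ⌊v * J⌋₊ ω))) ω⌋,
        (ceI ((range r).image c) (fun _ => J) (F.x ω),
          (z' (slam F ⌊v * J⌋₊ ω), F.W ω)))) ≤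
      ((1 - h) * (sb - sa) * Real.log 2 + d) * J)

/-- **The form with a value.** -/
theorem NpH.toW {K : ℕ} {h δ : ℝ} {m : ℕ} {S : PCl m} {C₀ : ℝ} (htm : TmC S C₀) {c : ℕ → Fin m}
    {r₀ r : ℕ} {v w lam q₁ ρ g₀ : ℝ} {E pc s n lv rd : ℕ → ℝ} {κ : Fin m} {I : Finset (Fin m)}
    {Kc K' : ℕ} {e P pN pa q d rG eG a : ℝ} {Θ : Fm4 m}
    (H : NpH K h δ S c r₀ r v w lam q₁ ρ g₀ E pc s n lv rd κ I Kc K' e P pN pa q d rG eG a Θ) :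
    NpW K h δ S c r₀ r v w lam ρ g₀ E pc s n lv rd κ I Kc e P pN q d rG eG a Θ where
  ch := H.ch.toV
  e0 := H.e0
  e8 := H.e8
  eg := H.eg
  pNP := H.pNP
  Pδ := H.Pδ
  q0 := H.q0
  vq := H.vq
  wa := H.wa
  a1 := H.a1
  rG0 := H.rG0
  eG0 := H.eG0
  dd := H.dd
  npl := fun J F A V z z' G g hTh => by
    obtain ⟨h1, -, -, h4⟩ := H.npc J F A V z z' G g hTh
    exact ⟨h1, h4⟩
  val := by
    refine valP_of htm H.ch le_rfl (fun J F => ⟨fun x => x, fun _ => rfl⟩) (kn0_bI _ _) κ Kc K'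
      (e := e) (pN := pN) (pa := pa) H.e0 H.e8 H.pN0 ?_ H.Pa H.Pq ?_
    · linarith [H.Pa, H.pNP, H.q0]
    · intro J F A V z z' G g hTh
      obtain ⟨h1, h2, h3, h4⟩ := H.npc J F A V z z' G g hTh
      exact ⟨h1, h2, h3⟩
  lb := H.lb
  hs := H.hs
  row := H.row

/-- The jets of order `< n` of the own path over the labels `G` of the window `v`, digits `N` of the
polynomial. -/
noncomputable def ojs {m J : ℕ} (F : Fam m J) (κ : Fin m) (v N : ℝ) {V : Type} (z' : LnT F → V)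
    (G : V → MvPolynomial (Option (Fin m)) ℝ) (n : ℕ) (ω : F.Ω) (j : Fin n) : ℤ :=
  ⌊(2 : ℝ) ^ ((N - ((j : ℕ) : ℝ) * v) * J) * ojet F κ (j : ℕ) (G (z' (slam F ⌊v * J⌋₊ ω))) ω⌋

/-- **All jets of the own path** over the labels of the family. -/
theorem jets_npw (K : ℕ) {h : ℝ} (hh : 0 < h) (hh1 : h ≤ 1) {ε : ℝ} (hε : 0 < ε) :
    ∃ δ : ℝ, 0 < δ ∧ ∀ {m : ℕ} {S : PCl m} {C₀ : ℝ} (_ : TmC S C₀) {c : ℕ → Fin m} {r₀ r : ℕ}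
    {v w lam ρ g₀ : ℝ} {E pc s n lv rd : ℕ → ℝ} {κ : Fin m} {I : Finset (Fin m)} {Kc : ℕ}
    {e P pN q d rG eG a : ℝ} {Θ : Fm4 m}
    (_ : NpW K h δ S c r₀ r v w lam ρ g₀ E pc s n lv rd κ I Kc e P pN q d rG eG a Θ)
    {U₀ : Type} {Qu : Qt m U₀} {α γ : ∀ J : ℕ, Fam m J → Type}
    {f : ∀ (J : ℕ) (F : Fam m J), F.Ω → α J F} {y : ∀ (J : ℕ) (F : Fam m J), F.Ω → γ J F}
    (_ : ∀ (J : ℕ) (F : Fam m J), ∃ φ : α J F → PtT F, ∀ ω, ptr F J ω = φ (f J F ω))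
    (_ : Kn0 ((range r₀).image c) (v + lam) y)
    (_ : ValP S Θ c r₀ r κ v w (P + q) n f y)
    (eQ : ℝ)
    (_ : ∀ K₀ : ℕ, Bas S (fun J F A => ∀ (V : Type) (z : PtT F → V) (z' : LnT F → V)
      (G : V → MvPolynomial (Option (Fin m)) ℝ) (g : V → ℕ → MvPolynomial (Option (Fin m)) ℝ),
      Θ J F A V z z' G g → ∀ u₀ : F.Ω → U₀, Qu.P K₀ eQ J F A u₀ →
      ∃ (V₁ : Type) (z₁ : F.Ω → V₁), Cl2 (f J F) (vg a J F) A z₁ ∧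
        CH (Pool.Agent.H49.Ent.cond F.p A True) (ctx c r₀ r Kc v lam n J F V z' g)
          (fun ω => (u₀ ω, (z₁ ω, y J F ω))) ≤ δ * q / 4 * J)),
    ∀ K₀ : ℕ, Bas S (fun J F A => ∀ (V : Type) (z : PtT F → V) (z' : LnT F → V)
      (G : V → MvPolynomial (Option (Fin m)) ℝ) (g : V → ℕ → MvPolynomial (Option (Fin m)) ℝ),
      Θ J F A V z z' G g → ∀ u₀ : F.Ω → U₀, Qu.P K₀ eQ J F A u₀ →
      ∃ (V₁ : Type) (z₁ : F.Ω → V₁), Cl2 (f J F) (vg a J F) A z₁ ∧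
        CH (Pool.Agent.H49.Ent.cond F.p A True) (ojs F κ v (P + q) z' G (K + 2))
          (fun ω => (u₀ ω, (z₁ ω, y J F ω))) ≤ ε * q * J) := by
  classical
  obtain ⟨δ, hδ, Hp⟩ := path_npw K hh hh1 (half_pos hε)
  refine ⟨δ, hδ, ?_⟩
  intro m S C₀ htm c r₀ r v w lam ρ g₀ E pc s n lv rd κ I Kc e P pN q d rG eG a Θ H U₀ Qu
    α γ f y hf hy hvy eQ hctx K₀
  have hq := H.q0
  have hv0 := H.ch.v0
  have hv1 : v ≤ 1 := by linarith [H.vq]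
  have hyT : ∀ (J : ℕ) (F : Fam m J), ∃ φ : γ J F → ℕ, ∀ ω, F.T ω = φ (y J F ω) := by
    intro J F
    obtain ⟨φ, hφ⟩ := hy J F
    exact ⟨fun x => (φ x).1, fun ω => (congrArg Prod.fst (hφ ω)).symm⟩
  choose M hM using fun j : ℕ => jet_path (K + 2) j
  obtain ⟨C₁, hC₁⟩ : ∃ C₁ : ℝ, C₁ = ∑ j : Fin (K + 2), Real.log (2 * M j + 1) := ⟨_, rfl⟩
  obtain ⟨J₁, hJ₁⟩ := exists_nat_ge (C₁ / (ε / 2 * q))
  refine Bas.mono J₁ ((Hp htm H.ch H.e0 H.e8 H.eg H.pNP H.Pδ H.q0 H.vq H.wa H.a1 H.rG0 H.eG0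
    H.dd H.npl H.val H.lb H.hs H.row hf hy hvy eQ hctx K₀).and (Pool.GRW.tmc_bas htm one_pos)) ?_
  rintro J hJ F A ⟨h1, hA, -⟩ V z z' G g hg u₀ hu₀
  have hJ0 : (0 : ℝ) ≤ J := Nat.cast_nonneg J
  have f1 : C₁ ≤ ε / 2 * q * J := by
    have e1 : (J₁ : ℝ) ≤ J := by exact_mod_cast hJ
    have e2 := hJ₁.trans e1
    rw [div_le_iff₀ (by positivity)] at e2
    linarith
  obtain ⟨V₁, z₁, hz₁, h2⟩ := h1 V z z' G g hg u₀ hu₀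
  refine ⟨V₁, z₁, hz₁, ?_⟩
  obtain ⟨q', hq'⟩ : ∃ q' : F.Ω → ℝ, q' = Pool.Agent.H49.Ent.cond F.p A True := ⟨_, rfl⟩
  have hq'l : IsLaw q' := by
    rw [hq']
    exact isLaw_cond F.isLaw hA
  have h0 := hq'l.nonneg
  rw [← hq'] at h2 ⊢
  obtain ⟨X, hX⟩ : ∃ X : F.Ω → (V × (F.ζ × ℕ)) × (((Fin m → ℤ × ℤ) × (ℕ → ℕ → ℤ)) ×
      (Fin (K + 3) → ℤ)), X = fun ω => ((z' (vg v J F ω), (vg v J F ω).2),
        (ctx c r₀ r Kc v lam n J F V z' g ω,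
        fun j : Fin (K + 3) => ⌊jr F ⌊v * J⌋₊ (2 ^ ((P + q) * J)) κ z' G j (vg v J F ω)⌋)) :=
    ⟨_, rfl⟩
  rw [← hX] at h2
  obtain ⟨Y, hY⟩ : ∃ Y : F.Ω → U₀ × (V₁ × γ J F), Y = fun ω => (u₀ ω, (z₁ ω, y J F ω)) := ⟨_, rfl⟩
  rw [← hY] at h2 ⊢
  -- the jets
  obtain ⟨Jt, hJt⟩ : ∃ Jt : F.Ω → Fin (K + 2) → ℤ, Jt = ojs F κ v (P + q) z' G (K + 2) :=
    ⟨_, rfl⟩
  rw [← hJt]
  have s2 := CH_le_add h0 Jt X Y
  have s3 : CH q' Jt (fun ω => (X ω, Y ω)) ≤ ∑ j : Fin (K + 2), Real.log (2 * M j + 1) := by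
    refine Pool.OWN83.ch_vecs h0 _ (K + 2) Jt (fun j => Real.log (2 * M j + 1)) fun j => ?_
    have e0 : (fun ω => Jt ω j) = fun ω => ⌊(2 : ℝ) ^ ((P + q - ((j : ℕ) : ℝ) * v) * J) *
        ojet F κ (j : ℕ) (G (z' (slam F ⌊v * J⌋₊ ω))) ω⌋ := by
      rw [hJt]
      rfl
    rw [e0]
    refine hM (j : ℕ) hv0 (floor_le hv1 J) (s := P + q) (κ := κ) (z' := z') (G := G) (fun x => by
      have h3 := (H.lb J F A V z z' G g hg).deg x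
      refine (MvPolynomial.totalDegree_sub _ _).trans (max_le ?_ (h3.trans (by omega)))
      exact (totalDegree_X _).le.trans (by omega)) hq'l (fun ω => (X ω, Y ω)) (fun ω ω' _ _ e => by
      obtain ⟨φT, hφT⟩ := hyT J F
      have e1 := (Prod.ext_iff.mp e).1
      have e2 := (Prod.ext_iff.mp e).2
      rw [hX] at e1
      rw [hY] at e2
      simp only [Prod.mk.injEq] at e1 e2
      refine ⟨by rw [hφT, hφT, e2.2.2], fun i hi => ?_⟩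
      exact congrFun e1.2.2 ⟨i, by omega⟩)
  have e3 : ε * q * J = ε / 2 * q * J + ε / 2 * q * J := by ring
  linarith

/-- **All codes of the own path** over the labels of the family. -/
theorem cod_npw (K : ℕ) {h : ℝ} (hh : 0 < h) (hh1 : h ≤ 1) {ε : ℝ} (hε : 0 < ε) :
    ∃ δ : ℝ, 0 < δ ∧ ∀ {m : ℕ} {S : PCl m} {C₀ : ℝ} (_ : TmC S C₀) {c : ℕ → Fin m} {r₀ r : ℕ}
    {v w lam ρ g₀ : ℝ} {E pc s n lv rd : ℕ → ℝ} {κ : Fin m} {I : Finset (Fin m)} {Kc : ℕ}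
    {e P pN q d rG eG a : ℝ} {Θ : Fm4 m}
    (_ : NpW K h δ S c r₀ r v w lam ρ g₀ E pc s n lv rd κ I Kc e P pN q d rG eG a Θ)
    {U₀ : Type} {Qu : Qt m U₀} {α γ : ∀ J : ℕ, Fam m J → Type}
    {f : ∀ (J : ℕ) (F : Fam m J), F.Ω → α J F} {y : ∀ (J : ℕ) (F : Fam m J), F.Ω → γ J F}
    (_ : ∀ (J : ℕ) (F : Fam m J), ∃ φ : α J F → PtT F, ∀ ω, ptr F J ω = φ (f J F ω))
    (_ : Kn0 ((range r₀).image c) (v + lam) y)
    (_ : ValP S Θ c r₀ r κ v w (P + q) n f y)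
    (eQ : ℝ)
    (_ : ∀ K₀ : ℕ, Bas S (fun J F A => ∀ (V : Type) (z : PtT F → V) (z' : LnT F → V)
      (G : V → MvPolynomial (Option (Fin m)) ℝ) (g : V → ℕ → MvPolynomial (Option (Fin m)) ℝ),
      Θ J F A V z z' G g → ∀ u₀ : F.Ω → U₀, Qu.P K₀ eQ J F A u₀ →
      ∃ (V₁ : Type) (z₁ : F.Ω → V₁), Cl2 (f J F) (vg a J F) A z₁ ∧
        CH (Pool.Agent.H49.Ent.cond F.p A True) (ctx c r₀ r Kc v lam n J F V z' g)
          (fun ω => (u₀ ω, (z₁ ω, y J F ω))) ≤ δ * q / 4 * J)),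
    ∀ K₀ : ℕ, Bas S (fun J F A => ∀ (V : Type) (z : PtT F → V) (z' : LnT F → V)
      (G : V → MvPolynomial (Option (Fin m)) ℝ) (g : V → ℕ → MvPolynomial (Option (Fin m)) ℝ),
      Θ J F A V z z' G g → ∀ u₀ : F.Ω → U₀, Qu.P K₀ eQ J F A u₀ →
      ∃ (V₁ : Type) (z₁ : F.Ω → V₁), Cl2 (f J F) (vg a J F) A z₁ ∧
        ∀ s : ℝ, 0 < s → s ≤ 2 ^ ((P + q) * J) →
        CH (Pool.Agent.H49.Ent.cond F.p A True) (Pool.AVG71.cod F ⌊v * J⌋₊ 0 (K + 1) s κ z' G)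
          (fun ω => (u₀ ω, (z₁ ω, y J F ω))) ≤ ε * q * J) := by
  classical
  obtain ⟨δ, hδ, Hp⟩ := jets_npw K hh hh1 (half_pos hε)
  refine ⟨δ, hδ, ?_⟩
  intro m S C₀ htm c r₀ r v w lam ρ g₀ E pc s n lv rd κ I Kc e P pN q d rG eG a Θ H U₀ Qu
    α γ f y hf hy hvy eQ hctx K₀
  have hq := H.q0
  have hv0 := H.ch.v0
  have hv1 : v ≤ 1 := by linarith [H.vq]
  have hyT : ∀ (J : ℕ) (F : Fam m J), ∃ φ : γ J F → ℕ, ∀ ω, F.T ω = φ (y J F ω) := by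
    intro J F
    obtain ⟨φ, hφ⟩ := hy J F
    exact ⟨fun x => (φ x).1, fun ω => (congrArg Prod.fst (hφ ω)).symm⟩
  obtain ⟨C₁, hC₁⟩ : ∃ C₁ : ℝ, C₁ =
    ((K + 1 + 1 : ℕ) : ℝ) * Real.log (2 * (2 ^ (2 * (K + 1) + 1) + 1) + 1) := ⟨_, rfl⟩
  obtain ⟨J₁, hJ₁⟩ := exists_nat_ge (C₁ / (ε / 2 * q))
  refine Bas.mono J₁ ((Hp htm H hf hy hvy eQ hctx K₀).and (Pool.GRW.tmc_bas htm one_pos)) ?_
  rintro J hJ F A ⟨h1, hA, -⟩ V z z' G g hg u₀ hu₀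
  have hJ0 : (0 : ℝ) ≤ J := Nat.cast_nonneg J
  have f1 : C₁ ≤ ε / 2 * q * J := by
    have e1 : (J₁ : ℝ) ≤ J := by exact_mod_cast hJ
    have e2 := hJ₁.trans e1
    rw [div_le_iff₀ (by positivity)] at e2
    linarith
  obtain ⟨V₁, z₁, hz₁, h2⟩ := h1 V z z' G g hg u₀ hu₀
  refine ⟨V₁, z₁, hz₁, fun σ hσ0 hσ => ?_⟩
  obtain ⟨q', hq'⟩ : ∃ q' : F.Ω → ℝ, q' = Pool.Agent.H49.Ent.cond F.p A True := ⟨_, rfl⟩
  have hq'l : IsLaw q' := by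
    rw [hq']
    exact isLaw_cond F.isLaw hA
  have h0 := hq'l.nonneg
  rw [← hq'] at h2 ⊢
  obtain ⟨Y, hY⟩ : ∃ Y : F.Ω → U₀ × (V₁ × γ J F), Y = fun ω => (u₀ ω, (z₁ ω, y J F ω)) := ⟨_, rfl⟩
  rw [← hY] at h2 ⊢
  obtain ⟨Cd, hCd⟩ : ∃ Cd : F.Ω → Fin (K + 1 + 1) → ℤ,
    Cd = Pool.AVG71.cod F ⌊v * J⌋₊ 0 (K + 1) σ κ z' G := ⟨_, rfl⟩
  rw [← hCd]
  obtain ⟨Jt, hJt⟩ : ∃ Jt : F.Ω → Fin (K + 2) → ℤ, Jt = ojs F κ v (P + q) z' G (K + 2) :=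
    ⟨_, rfl⟩
  rw [← hJt] at h2
  have s1 := CH_le_add h0 Cd Jt Y
  have s4 : CH q' Cd (fun ω => (Jt ω, Y ω)) ≤
      ((K + 1 + 1 : ℕ) : ℝ) * Real.log (2 * (2 ^ (2 * (K + 1) + 1) + 1) + 1) := by
    rw [hCd]
    refine cod_few hv0 (floor_le hv1 J) hσ0 hσ (fun x => ?_) hq'l _ 0
      (s := fun j => P + q - (j : ℕ) * v) (fun j _ _ => le_rfl) fun ω ω' _ _ e => ?_
    · have h3 := (H.lb J F A V z z' G g hg).deg x
      omega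
    · simp only [Prod.mk.injEq] at e
      obtain ⟨e1, e2⟩ := e
      rw [hY] at e2
      simp only [Prod.mk.injEq] at e2
      obtain ⟨φT, hφT⟩ := hyT J F
      refine ⟨by rw [hφT, hφT, e2.2.2], fun j _ hj => ?_⟩
      rw [hJt] at e1
      exact congrFun e1 ⟨j, by omega⟩
  have e3 : ε * q * J = ε / 2 * q * J + ε / 2 * q * J := by ring
  linarith

end Pool.NPZ
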